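import Mathlib
import Pool.Agent.W448.AD.E
set_option autoImplicit false
open Finset

namespace Pool.Agent.Results.MP_f155e9_co.NearExact

/-- Every antichain `F` of subsets of an `n`-set with `|A Δ B| ≤ n - k` for all members has at most
`C(n, ⌈(n+k)/2⌉) + 2 (C(n, s-2) + C(n, s-4) + ...)` members, where `s = ⌊(n-k)/2⌋`. -/
theorem result (n k : ℕ) (hkn : k ≤ n) (F : Finset (Finset (Fin n)))
    (hF : IsAntichain (· ⊆ ·) (F : Set (Finset (Fin n))))
    (hd : ∀ A ∈ F, ∀ B ∈ F, (symmDiff A B).card ≤ n - k) :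
    F.card ≤ n.choose ((n + k + 1) / 2) +
      2 * ∑ i ∈ range ((n - k) / 2 / 2), n.choose ((n - k) / 2 - 2 * (i + 1)) := by
  have h1 : n.choose ((n + k + 1) / 2) = n.choose ((n - k) / 2) := by
    have e : (n + k + 1) / 2 = n - (n - k) / 2 := by omega
    rw [e]
    exact Nat.choose_symm (by omega)
  rw [h1]
  apply Pool.Agent.W448.AD.bound ((n - k) / 2) (by omega) F
  · intro A hA B hB hne hAB
    exact hF (mem_coe.2 hA) (mem_coe.2 hB) hne hAB
  · intro A hA B hB
    have := hd A hA B hB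
    omega

end Pool.Agent.Results.MP_f155e9_co.NearExact
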