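import Mathlib
import Pool.Agent.W448.AD.F
set_option autoImplicit false
open Finset

namespace Pool.Agent.Results.MP_f155e9_co.ThreeSizes

/-- The conjectured bound for all `n` and `k ≥ 1` when the members of the antichain have at most
three different sizes. -/
theorem result (n k : ℕ) (hk : 1 ≤ k) (hkn : k ≤ n) (F : Finset (Finset (Fin n)))
    (hF : IsAntichain (· ⊆ ·) (F : Set (Finset (Fin n))))
    (hd : ∀ A ∈ F, ∀ B ∈ F, (symmDiff A B).card ≤ n - k)
    (hsz : ∃ a b c : ℕ, ∀ A ∈ F, A.card = a ∨ A.card = b ∨ A.card = c) :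
    F.card ≤ n.choose ((n + k + 1) / 2) := by
  have h1 : n.choose ((n + k + 1) / 2) = n.choose ((n - k) / 2) := by
    have e : (n + k + 1) / 2 = n - (n - k) / 2 := by omega
    rw [e]
    exact Nat.choose_symm (by omega)
  obtain ⟨a, b, c, hsz⟩ := hsz
  rw [h1]
  apply Pool.Agent.W448.AD.three_sizes ((n - k) / 2) a b c (by omega) F
  · intro A hA B hB hAB
    by_contra hne
    exact hF (mem_coe.2 hA) (mem_coe.2 hB) hne hAB
  · intro A hA B hB
    have h2 := hd A hA B hB
    have h3 : (symmDiff A B).card = (A \ B).card + (B \ A).card := by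
      rw [symmDiff_def, sup_eq_union, card_union_of_disjoint]
      exact disjoint_sdiff_sdiff
    omega
  · exact hsz

end Pool.Agent.Results.MP_f155e9_co.ThreeSizes
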